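import Pool.Agent.Helper33.Perc.Cap

set_option autoImplicit false

open Filter Topology
open Pool.Agent.Helper33.Perc Pool.Agent.Perc

/-- Percolation games on non-amenable vertex-transitive graphs. Let `G` be a connected, locally
finite, vertex-transitive graph such that every finite set `W` of vertices has at least `h * |W|`
boundary edges, where `h > 0` (so `G` is infinite). Then the critical bias exists, it is at least
`h`, and it is the limit of `maxCut G v₀ p / p` for every vertex `v₀`. -/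
theorem Pool.Agent.Results.MP_31f454_co.Nonamenable.result
    (V : Type) (G : SimpleGraph V) (hconn : G.Connected)
    (hlf : ∀ v : V, (G.neighborSet v).Finite)
    (htrans : ∀ u v : V, ∃ φ : G ≃g G, φ u = v)
    (h : ℝ) (hpos : 0 < h)
    (hna : ∀ W : Finset V, h * (W.card : ℝ) ≤ ((edgeBoundary G W).ncard : ℝ)) :
    ∃ b : ℝ, h ≤ b ∧
      (∀ v₀ : V, Tendsto (fun p : ℕ => (maxCut G v₀ p : ℝ) / (p : ℝ)) atTop (𝓝 b)) ∧
      ∀ ε : ℝ, 0 < ε → ∃ p₀ : ℕ, ∀ p q : ℕ, p₀ ≤ p → ∀ v₀ : V,
        ((b + ε) * (p : ℝ) < (q : ℝ) → BreakerWins G v₀ p q) ∧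
        ((q : ℝ) < (b - ε) * (p : ℝ) → MakerWins G v₀ p q) := by
  classical
  have : Nonempty V := hconn.nonempty
  obtain ⟨o⟩ : Nonempty V := inferInstance
  have hd : ∀ v, (nb hlf v).card ≤ (nb hlf o).card := by
    intro v
    obtain ⟨φ, hφ⟩ := htrans v o
    rw [← Finset.card_image_of_injective (nb hlf v) φ.injective]
    apply Finset.card_le_card
    intro x hx
    rw [Finset.mem_image] at hx
    obtain ⟨y, hy, rfl⟩ := hx
    rw [mem_nb] at hy ⊢
    rw [← hφ]
    exact φ.map_rel_iff.2 hy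
  set d := (nb hlf o).card with hd_def
  let E : Env V :=
    { G := G, hlf := hlf, d := d, hd := hd, h := h, hpos := hpos,
      hna := fun W => by rw [← edgeBoundary_ncard hlf]; exact hna W,
      conn := hconn, trans := htrans }
  have hinf : G.edgeSet.Infinite := edgeSet_infinite_of_cheeger E.toDat o
  set m : ℕ → ℕ := fun p => maxCut G o p with hm
  have hmv : ∀ v p, maxCut G v p = m p := by
    intro v p
    obtain ⟨φ, hφ⟩ := htrans v o
    obtain ⟨ψ, hψ⟩ := htrans o v
    apply le_antisymm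
    · have := maxCut_map_le hlf d hd hinf φ v p
      rw [hφ] at this; exact this
    · have := maxCut_map_le hlf d hd hinf ψ o p
      rw [hψ] at this; exact this
  set Sb : Set ℝ := {c : ℝ | ∃ P0 : ℕ, ∀ p : ℕ, P0 ≤ p → (m p : ℝ) ≤ c * p} with hSb
  have hlb : ∀ c ∈ Sb, h ≤ c := by
    rintro c ⟨P0, hP0⟩
    have h1 := hP0 (max P0 1) (le_max_left _ _)
    have h2 : h * ((max P0 1 : ℕ) : ℝ) ≤ m (max P0 1) := maxCut_ge E.toDat o (max P0 1)
    have h3 : (0 : ℝ) < ((max P0 1 : ℕ) : ℝ) := by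
      have : 0 < max P0 1 := lt_of_lt_of_le one_pos (le_max_right _ _)
      exact_mod_cast this
    exact le_of_mul_le_mul_right (h2.trans h1) h3
  have hne : Sb.Nonempty := by
    refine ⟨3 * d, 1, fun p hp => ?_⟩
    have h1 : m p ≤ d * (2 * p + 1) := maxCut_le hlf d hd hinf o p
    have h2 : m p ≤ 3 * d * p := by
      calc m p ≤ d * (2 * p + 1) := h1
        _ ≤ d * (3 * p) := Nat.mul_le_mul_left _ (by omega)
        _ = 3 * d * p := by ring
    exact_mod_cast h2
  have hbdd : BddBelow Sb := ⟨h, fun c hc => hlb c hc⟩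
  set b := sInf Sb with hb
  have hhb : h ≤ b := le_csInf hne hlb
  have hb0 : 0 < b := lt_of_lt_of_le hpos hhb
  have hupper : ∀ ε : ℝ, 0 < ε → ∃ P0 : ℕ, ∀ p : ℕ, P0 ≤ p → (m p : ℝ) ≤ (b + ε) * p := by
    intro ε hε
    obtain ⟨c, ⟨P0, hP0⟩, hc⟩ := exists_lt_of_csInf_lt hne (show sInf Sb < b + ε by linarith)
    refine ⟨P0, fun p hp => (hP0 p hp).trans ?_⟩
    exact mul_le_mul_of_nonneg_right hc.le (Nat.cast_nonneg _)
  have hfreq : Freq E b := by
    apply freq_of_weak E b hb0
    intro δ hδ S0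
    have h1 : ∃ n : ℕ, S0 ≤ n ∧ (b - δ) * n < m n := by
      by_contra hcon
      push Not at hcon
      have : b ≤ b - δ := csInf_le hbdd ⟨S0, hcon⟩
      linarith
    obtain ⟨n, hn, hlt⟩ := h1
    obtain ⟨M, hM, hMc, hMv⟩ := maxCut_attained hlf d hd hinf o n
    refine ⟨n, hn, o, M, hM, hMc, fun W hW => ?_⟩
    have h2 := cutValue_le hlf hM hW
    have h3 : (m n : ℝ) ≤ (bd hlf W).card := by
      have h4 : m n ≤ (bd hlf W).card := by
        rw [hm]; simp only; rw [← hMv]; exact h2
      exact_mod_cast h4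
    exact hlt.le.trans h3
  refine ⟨b, hhb, ?_, ?_⟩
  · intro v₀
    simp only [hmv]
    rw [Metric.tendsto_atTop]
    intro ε hε
    set ε' := min (ε / 3) (b / 2) with hε'
    have hε'0 : 0 < ε' := by rw [hε']; apply lt_min <;> positivity
    have hε'1 : ε' ≤ ε / 3 := min_le_left _ _
    have hε'2 : ε' ≤ b / 2 := min_le_right _ _
    obtain ⟨P0, hP0⟩ := hupper ε' hε'0
    obtain ⟨L, hL⟩ := cut_lower E b hb0 hfreq ε' hε'0 (by linarith)
    refine ⟨max (max P0 1) ⌈b * L / ε'⌉₊, fun p hp => ?_⟩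
    have hp0 : P0 ≤ p := le_trans (le_trans (le_max_left _ _) (le_max_left _ _)) hp
    have hp1 : 1 ≤ p := le_trans (le_trans (le_max_right _ _) (le_max_left _ _)) hp
    have hp2 : ⌈b * L / ε'⌉₊ ≤ p := le_trans (le_max_right _ _) hp
    have hpR : (0 : ℝ) < p := by exact_mod_cast hp1
    have hup := hP0 p hp0
    have hlow : (b - ε') * ((p : ℝ) - L) ≤ m p := by
      obtain ⟨X, hXE, hXc, hXW⟩ := hL o p
      obtain ⟨W, hW, hWc⟩ := cutValue_attained hlf (v₀ := o) hXE
      have h1 := hXW W hW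
      have h2 : cutValue G o X ≤ m p := by
        have := le_maxCut hlf d hd o hXE
        rw [hXc] at this; exact this
      have h3 : ((bd hlf W).card : ℝ) ≤ m p := by
        rw [hWc]; exact_mod_cast h2
      exact h1.trans h3
    have hpL : b * L ≤ ε' * p := by
      have h1 := Nat.le_ceil (b * L / ε')
      have h2 : (⌈b * L / ε'⌉₊ : ℝ) ≤ p := by exact_mod_cast hp2
      have h3 := h1.trans h2
      rw [div_le_iff₀ hε'0] at h3
      linarith
    rw [Real.dist_eq, abs_lt]
    constructor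
    · rw [lt_sub_iff_add_lt, lt_div_iff₀ hpR]
      have h1 : (b - ε') * (L : ℝ) ≤ b * L :=
        mul_le_mul_of_nonneg_right (by linarith) (Nat.cast_nonneg _)
      have h2 : (-ε + b) * (p : ℝ) < (b - 2 * ε') * p :=
        mul_lt_mul_of_pos_right (by linarith) hpR
      have h3 : (b - 2 * ε') * (p : ℝ) = (b - ε') * p - ε' * p := by ring
      rw [mul_sub] at hlow
      linarith
    · rw [sub_lt_iff_lt_add, div_lt_iff₀ hpR]
      have h2 : (b + ε') * (p : ℝ) < (ε + b) * p :=
        mul_lt_mul_of_pos_right (by linarith) hpR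
      linarith
  · intro ε hε
    obtain ⟨P0, hP0⟩ := hupper ε hε
    obtain ⟨P1, hP1⟩ := maker_side E b hb0 hfreq ε hε
    refine ⟨max P0 P1, fun p q hp v₀ => ⟨fun hq => ?_, fun hq => ?_⟩⟩
    · have h1 := hP0 p (le_trans (le_max_left _ _) hp)
      apply breakerWins_of_one_turn hinf
      intro M hMc hME
      obtain ⟨W, hW, hWc⟩ := cutValue_attained hlf (v₀ := v₀) hME
      refine ⟨(↑W : Set V), W.finite_toSet, hW.1, bd hlf W, bd_subset_edgeSet, ?_, ?_, ?_⟩
      · have h2 := le_maxCut hlf d hd v₀ hME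
        rw [hMc, hmv, ← hWc] at h2
        have h3 : ((bd hlf W).card : ℝ) < q := by
          have h4 : ((bd hlf W).card : ℝ) ≤ m p := by exact_mod_cast h2
          linarith
        exact_mod_cast h3.le
      · rw [Finset.disjoint_left]
        intro e he heM
        have h2 := ((adm_iff v₀ hME W).2 hW).2 e heM
        rw [edgeBoundary_eq hlf] at h2
        exact h2 he
      · intro x hx y hy hxy
        exact mem_bd.2 ⟨x, hx, y, hy, hxy, rfl⟩
    · exact hP1 p q (le_trans (le_max_right _ _) hp) hq v₀
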