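import Pool.Agent.Helper22.PG.FinalOf
import Pool.Agent.Helper22.PG.OfGrowth
import Pool.Agent.Helper22.PG.Static
import Pool.Agent.Helper22.PG.Turn
import Pool.Agent.Helper22.PG.SubQuad

set_option autoImplicit false

open Filter Topology
open Pool.Agent.Helper22.PG Pool.Agent.Helper30.Perc Pool.Agent.Perc

/-- Percolation games on vertex-transitive graphs of polynomial growth, quadratic growth excepted.
Let `G` be an infinite, connected, locally finite, vertex-transitive graph such that, for some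
vertex `o`, some real `D` with `D < 2` or `D ≥ 3` and some constants `c₁ > 0`, `c₂`, the ball of
radius `r ≥ 1` about `o` has at least `c₁ * r ^ D` and at most `c₂ * r ^ D` vertices. Then the
critical bias exists, and it is the limit of `maxCap G v₀ p / p` for every vertex `v₀`; it is `0`
if `D < 2` and positive if `D ≥ 3`. -/
theorem Pool.Agent.Results.MP_31f454_co.PolynomialGrowth.result
    (V : Type) (G : SimpleGraph V) (hinf : Infinite V) (hconn : G.Connected)
    (hlf : ∀ v : V, (G.neighborSet v).Finite)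
    (htrans : ∀ u v : V, ∃ φ : G ≃g G, φ u = v)
    (o : V) (D c₁ c₂ : ℝ) (hD : D < 2 ∨ 3 ≤ D) (hc₁ : 0 < c₁)
    (hgr : ∀ r : ℕ, 1 ≤ r → c₁ * (r : ℝ) ^ D ≤ ({w : V | G.dist o w ≤ r}.ncard : ℝ) ∧
      ({w : V | G.dist o w ≤ r}.ncard : ℝ) ≤ c₂ * (r : ℝ) ^ D) :
    ∃ b : ℝ, (D < 2 → b = 0) ∧ (3 ≤ D → 0 < b) ∧
      (∀ v₀ : V, Tendsto (fun p : ℕ => (maxCap G v₀ p : ℝ) / (p : ℝ)) atTop (𝓝 b)) ∧
      ∀ ε : ℝ, 0 < ε → ∃ p₀ : ℕ, ∀ p q : ℕ, p₀ ≤ p → ∀ v₀ : V,
        ((b + ε) * (p : ℝ) < (q : ℝ) → BreakerWins G v₀ p q) ∧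
        ((q : ℝ) < (b - ε) * (p : ℝ) → MakerWins G v₀ p q) := by
  classical
  let _ : G.LocallyFinite := fun v => (hlf v).fintype
  rcases hD with hD | hD
  · obtain ⟨h1, h2⟩ := subquadratic hinf hconn htrans o D c₂ hD (fun r hr => by
      have h2 : {x : V | G.dist o x ≤ r} = (bl G o r : Set V) := by
        ext x
        rw [Finset.mem_coe, mem_bl hconn]
        exact Iff.rfl
      have h3 := (hgr r hr).2
      rwa [h2, Set.ncard_coe_finset] at h3)
    exact ⟨0, fun _ => rfl, fun h => absurd h (by linarith), h1, h2⟩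
  · obtain ⟨d, K, C, hP⟩ := polyG_of_growth G hinf hconn htrans o D c₁ c₂ hD hc₁ hgr
    obtain ⟨b, -, h1, h2⟩ := main_of hP (static hP) (turn hP)
    exact ⟨b, fun h => absurd h (by linarith), fun _ => hP.lim_pos o b (h1 o), h1, h2⟩
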