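import Pool.Agent.ISP.Main

/-! Percolation games on Cayley graphs of superpolynomial growth. -/

set_option autoImplicit false

open Filter Topology
open Pool.Agent.Helper30.Perc

namespace Pool.Agent.Results.MP_31f454_co.SuperpolynomialGrowth

/-- The Cayley graph of `Γ` with respect to `S`: the vertices are the elements of `Γ`, and
`x ≠ y` are adjacent if and only if `x⁻¹ * y ∈ S` or `y⁻¹ * x ∈ S`. -/
def cayleyGraph {Γ : Type} [Group Γ] (S : Finset Γ) : SimpleGraph Γ :=
  SimpleGraph.fromRel fun x y => x⁻¹ * y ∈ S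

/-- The number of elements of the ball of radius `r` about `1`. -/
noncomputable def growth {Γ : Type} [Group Γ] (S : Finset Γ) (r : ℕ) : ℕ :=
  {g : Γ | (cayleyGraph S).dist 1 g ≤ r}.ncard

/-- Superpolynomial growth, in the following form: for every `B` the ball of radius `r ^ 2` has at
least `r ^ B` times as many elements as the ball of radius `r`, for all large `r`. -/
def SuperGrowth {Γ : Type} [Group Γ] (S : Finset Γ) : Prop :=
  ∀ B : ℕ, ∃ r₀ : ℕ, ∀ r : ℕ, r₀ ≤ r → r ^ B * growth S r ≤ growth S (r ^ 2)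

/-- Polynomially controlled Foelner sets: for some `c > 0` and all large `r` the ball of radius `r`
contains a nonempty finite set `F` with at most `r ^ (-c) * |F|` boundary edges; or, for some `a < 1`, the
ball of radius `r` has at most `exp (r ^ a)` elements for all large `r`; or, for some `a < 1`, the random
walk returns to `1` at time `2 * n` with probability at least `exp (-n ^ a)` for all large `n` (there are
at least `exp (-n ^ a)` times (degree)`^ (2 * n)` closed walks of length `2 * n` at `1`). -/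
def ControlledFolner {Γ : Type} [Group Γ] (S : Finset Γ) : Prop :=
  (∃ c : ℝ, 0 < c ∧ ∃ r₀ : ℕ, ∀ r : ℕ, r₀ ≤ r → ∃ F : Finset Γ, F.Nonempty ∧
    (∀ x ∈ F, (cayleyGraph S).dist 1 x ≤ r) ∧
      ((bdry (cayleyGraph S) (F : Set Γ)).ncard : ℝ) ≤ (r : ℝ) ^ (-c) * F.card) ∨
  (∃ a : ℝ, a < 1 ∧ ∃ r₀ : ℕ, ∀ r : ℕ, r₀ ≤ r → (growth S r : ℝ) ≤ Real.exp ((r : ℝ) ^ a)) ∨
  ∃ a : ℝ, a < 1 ∧ ∃ n₀ : ℕ, ∀ n : ℕ, n₀ ≤ n →
    (((cayleyGraph S).neighborSet 1).ncard : ℝ) ^ (2 * n) * Real.exp (-((n : ℝ) ^ a)) ≤
      {w : (cayleyGraph S).Walk 1 1 | w.length = 2 * n}.ncard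

/-- `Γ` has a quotient `Q` which, with the image `T` of `S` as generating set, has superpolynomial
growth and polynomially controlled Foelner sets. -/
def HasControlledQuotient {Γ : Type} [Group Γ] (S : Finset Γ) : Prop :=
  ∃ (Q : Type) (_ : Group Q) (φ : Γ →* Q) (T : Finset Q), Function.Surjective φ ∧
    (∀ t, t ∈ T ↔ ∃ s ∈ S, φ s = t) ∧ SuperGrowth T ∧ ControlledFolner T

/-- Some subgroup `H` of finite index in `Γ` acts on a nonempty complete metric space by
similarities, `h` having ratio `lam h`, not all ratios being `1`, without common fixed point. -/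
def ActsBySimilarities (Γ : Type) [Group Γ] : Prop :=
  ∃ (H : Subgroup Γ) (_ : H.FiniteIndex) (X : Type) (_ : MetricSpace X) (_ : CompleteSpace X)
    (_ : Nonempty X) (_ : MulAction H X) (lam : H → ℝ),
    (∀ (h : H) (x y : X), dist (h • x) (h • y) = lam h * dist x y) ∧ (∃ h, lam h ≠ 1) ∧
      ¬ ∃ x : X, ∀ h : H, h • x = x

/-- Percolation games on Cayley graphs of superpolynomial growth. Let `Γ` be a group generated by a
finite set `S`, of superpolynomial growth or virtually acting by similarities. Then `maxCap p / p` has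
a positive limit `b`, the same for all roots, and Breaker wins for large `p` if `q > (b + ε) * p`. If
`Γ` has a quotient of superpolynomial growth with polynomially controlled Foelner sets, or if it
virtually acts by similarities, then Maker wins for large `p` if `q < (b - ε) * p`, so `b` is the critical
bias. -/
theorem result
    (Γ : Type) [Group Γ] (S : Finset Γ) (hS : Subgroup.closure (S : Set Γ) = ⊤)
    (hgr : SuperGrowth S ∨ ActsBySimilarities Γ) :
    ∃ b : ℝ, 0 < b ∧
      (∀ v₀ : Γ, Tendsto (fun p : ℕ => (maxCap (cayleyGraph S) v₀ p : ℝ) / (p : ℝ))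
        atTop (𝓝 b)) ∧
      ∀ ε : ℝ, 0 < ε → ∃ p₀ : ℕ, ∀ p q : ℕ, p₀ ≤ p → ∀ v₀ : Γ,
        ((b + ε) * (p : ℝ) < (q : ℝ) → BreakerWins (cayleyGraph S) v₀ p q) ∧
        (HasControlledQuotient S ∨ ActsBySimilarities Γ → (q : ℝ) < (b - ε) * (p : ℝ) →
          MakerWins (cayleyGraph S) v₀ p q) :=
  Pool.Agent.ISP.main Γ S hS hgr

end Pool.Agent.Results.MP_31f454_co.SuperpolynomialGrowth
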