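import Pool.Agent.Helper22.PG.FinalOf
import Pool.Agent.Helper22.PG.OfGrowth
import Pool.Agent.Helper22.PG.Static
import Pool.Agent.Helper22.PG.Turn
import Pool.Agent.Helper68.Perc.ZCap

set_option autoImplicit false

open Filter Topology
open Pool.Agent.Helper22.PG Pool.Agent.Helper30.Perc Pool.Agent.Perc

/-- Percolation games on `ℤ^d`, `d ≥ 3`: Breaker wins as soon as `q ≥ (2 d - 2) p + 2 d`, and for
every `ε > 0` Maker wins for all large `p` when `q < (2 d - 2 - ε) p`. In particular the critical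
bias of `ℤ^d` is `2 d - 2`. -/
theorem Pool.Agent.Results.MP_31f454_co.ZdBias.result (d : ℕ) (hd : 3 ≤ d) :
    (∀ p q : ℕ, (2 * (d : ℝ) - 2) * (p : ℝ) + 2 * d ≤ (q : ℝ) → ∀ v₀ : Fin d → ℤ,
      BreakerWins (Zd.zd d) v₀ p q) ∧
    ∀ ε : ℝ, 0 < ε → ∃ p₀ : ℕ, ∀ p q : ℕ, p₀ ≤ p → ∀ v₀ : Fin d → ℤ,
      (q : ℝ) < (2 * (d : ℝ) - 2 - ε) * (p : ℝ) → MakerWins (Zd.zd d) v₀ p q := by
  classical
  have : NeZero d := ⟨by omega⟩
  constructor
  · intro p q hq v₀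
    apply Zd.breakerWins_zd
    have h : 2 * (d : ℝ) * p + 2 * d ≤ q + 2 * p := by linarith
    exact_mod_cast h
  · obtain ⟨d', K, C, hP⟩ := polyG_of_growth (Zd.zd d) Zd.infinite Zd.connected Zd.transitive 0 d
      _ _ (by exact_mod_cast hd) (by positivity) (fun r hr => Zd.ball_growth (by omega) 0 r hr)
    obtain ⟨b, -, hb, hmain⟩ := main_of hP (static hP) (turn hP)
    have hbd : b = 2 * (d : ℝ) - 2 := tendsto_nhds_unique (hb 0) (Zd.tendsto_maxCap 0)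
    intro ε hε
    obtain ⟨p₀, hp₀⟩ := hmain ε hε
    refine ⟨p₀, fun p q hp v₀ hq => (hp₀ p q hp v₀).2 ?_⟩
    rw [hbd]
    exact hq
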